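import Pool.Agent.W200.MR.Stm

/-!
# S_EX: existence of a good `t` by averaging with the weight `‖G t‖^2`
-/

open Finset Filter Topology MeasureTheory

namespace Pool.Agent.W584.MR.EX

open Pool.Agent.W200.MR

lemma norm_pw (t : ℝ) (n : ℕ) : ‖pw t n‖ = 1 := by
  unfold pw
  exact Complex.norm_exp_ofReal_mul_I _

lemma cont_pw (n : ℕ) : Continuous (fun t : ℝ => pw t n) := by
  unfold pw
  fun_prop

lemma cont_pw' (s : ℝ) (n : ℕ) : Continuous (fun t : ℝ => pw (s + t) n) :=
  (cont_pw n).comp (continuous_const.add continuous_id)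

lemma cont_SR (s : ℝ) (T a b N : ℕ) : Continuous (fun t : ℝ => SR (s + t) T a b N) := by
  unfold SR
  exact continuous_finsetSum _ (fun n _ => cont_pw' s n)

lemma cont_SA (s : ℝ) (a b N : ℕ) : Continuous (fun t : ℝ => SA (s + t) a b N) := by
  unfold SA
  exact continuous_finsetSum _ (fun n _ => cont_pw' s n)

lemma cont_Q1 (T A Y : ℕ) (s : ℝ) : Continuous (fun t : ℝ => Q1 T A Y s t) := by
  unfold Q1
  refine continuous_finsetSum _ (fun a _ => continuous_finsetSum _ (fun b _ =>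
    continuous_finsetSum _ (fun N _ => ?_)))
  exact (((cont_SR s T a b N).norm).pow 2).div_const _

lemma cont_Q2 (A Y X : ℕ) (s : ℝ) : Continuous (fun t : ℝ => Q2 A Y X s t) := by
  unfold Q2
  refine continuous_finsetSum _ (fun a _ => continuous_finsetSum _ (fun b _ =>
    continuous_finsetSum _ (fun N _ => ?_)))
  exact (((cont_SA s a b N).norm).pow 2).div_const _

lemma Q1_nonneg (T A Y : ℕ) (s t : ℝ) : 0 ≤ Q1 T A Y s t := by
  unfold Q1
  exact sum_nonneg (fun a _ => sum_nonneg (fun b _ => sum_nonneg (fun N _ => by positivity)))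

lemma Q2_nonneg (A Y X : ℕ) (s t : ℝ) : 0 ≤ Q2 A Y X s t := by
  unfold Q2
  exact sum_nonneg (fun a _ => sum_nonneg (fun b _ => sum_nonneg (fun N _ => by positivity)))

lemma cont_G (U : Finset ℕ) : Continuous (fun t : ℝ => ‖∑ u ∈ U, pw t u‖ ^ 2) :=
  ((continuous_finsetSum _ (fun n _ => cont_pw n)).norm).pow 2

lemma G_le (U : Finset ℕ) (t : ℝ) : ‖∑ u ∈ U, pw t u‖ ^ 2 ≤ (U.card : ℝ) ^ 2 := by
  have h : ‖∑ u ∈ U, pw t u‖ ≤ (U.card : ℝ) := by
    refine (norm_sum_le _ _).trans ?_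
    simp [norm_pw]
  exact pow_le_pow_left₀ (norm_nonneg _) h 2

lemma cont_P (T : ℕ) : Continuous (fun t : ℝ =>
    ∑ p ∈ (range T).filter Nat.Prime, ‖pw t p - 1‖ ^ 2) :=
  continuous_finsetSum _ (fun p _ => (((cont_pw p).sub continuous_const).norm).pow 2)

/-- if the mean of a continuous function is negative, some value is -/
lemma exists_neg (F : ℝ → ℝ) (S : ℝ) (hS : 0 < S)
    (h : ∫ t in S..(2 * S), F t < 0) : ∃ t : ℝ, S ≤ t ∧ t ≤ 2 * S ∧ F t < 0 := by
  by_contra hcon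
  push Not at hcon
  have : 0 ≤ ∫ t in S..(2 * S), F t := by
    refine intervalIntegral.integral_nonneg (by linarith) ?_
    intro t ht
    exact hcon t ht.1 ht.2
  linarith

lemma lt_of_three {R q x y z : ℝ} (hR : 0 < R) (hq : 0 < q) (hx : 0 ≤ x) (hy : 0 ≤ y) (hz : 0 ≤ z)
    (h : (1 / R) * x + (1 / q) * y + (1 / q) * z < 1) : x < R ∧ y < q ∧ z < q := by
  have p1 : 0 ≤ (1 / R) * x := by positivity
  have p2 : 0 ≤ (1 / q) * y := by positivity
  have p3 : 0 ≤ (1 / q) * z := by positivity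
  refine ⟨?_, ?_, ?_⟩
  · have : (1 / R) * x < 1 := by linarith
    rw [one_div, inv_mul_lt_iff₀ hR] at this
    linarith
  · have : (1 / q) * y < 1 := by linarith
    rw [one_div, inv_mul_lt_iff₀ hq] at this
    linarith
  · have : (1 / q) * z < 1 := by linarith
    rw [one_div, inv_mul_lt_iff₀ hq] at this
    linarith

lemma sqrt_natsq (k : ℕ) : Real.sqrt ((k ^ 2 : ℕ) : ℝ) = (k : ℝ) := by
  push_cast
  exact Real.sqrt_sq (by positivity)

lemma le_natsq {Y k : ℕ} (h : Y ≤ k) : Y ≤ k ^ 2 := by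
  nlinarith

theorem t_EX : S_U → S_WT → S_EX1 → S_EX2 → S_EX3 → S_EX := by
  intro hU hWT h1 h2 h3
  obtain ⟨C, hC, h2⟩ := h2
  refine ⟨8 * C, by positivity, ?_⟩
  intro T A m Y s q S0 hT hA hm hq hCq hYq hTY
  obtain ⟨U, hW⟩ := hU T m hm
  have hUne : U.Nonempty := hW.1
  have hUc : (0 : ℝ) < U.card := by exact_mod_cast hUne.card_pos
  have hUm : (U.card : ℝ) ≤ (m : ℝ) ^ T := by exact_mod_cast hW.2.2.1
  have hmR : (0 : ℝ) < m := by exact_mod_cast hm
  have hTR : (0 : ℝ) < T := by exact_mod_cast (by omega : 0 < T)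
  have hAR : (0 : ℝ) < A := by exact_mod_cast hA
  have hY1 : 1 ≤ Y := by omega
  have hYR : (0 : ℝ) < Y := by exact_mod_cast hY1
  set M : ℝ := (m : ℝ) ^ T with hM
  have hMpos : 0 < M := by positivity
  have e0 := (hWT T m U hm hW (1 / 16) (by norm_num)).1
  have e1 := h1 T m U hm hW
  have e2 := h2 T A m Y s U hT hm hW (q / 16) (by positivity)
  have e3 := h3 A Y s (q / (16 * M * (A : ℝ) ^ 2)) hY1 (by positivity)
  obtain ⟨S, hS⟩ := (e0.and (e1.and (e2.and (e3.and (eventually_ge_atTop (max S0 (max 1 (Y : ℝ)))))))).exists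
  obtain ⟨g0, g1, g2, g3, hSm⟩ := hS
  have hS0 : S0 ≤ S := (le_max_left _ _).trans hSm
  have hS1 : 1 ≤ S := ((le_max_left _ _).trans (le_max_right _ _)).trans hSm
  have hSY : (Y : ℝ) ≤ S := ((le_max_right _ _).trans (le_max_right _ _)).trans hSm
  have hSpos : 0 < S := by linarith
  set X : ℕ := ⌈S⌉₊ ^ 2 with hX
  have hceil : S ≤ (⌈S⌉₊ : ℝ) := Nat.le_ceil S
  -- notation
  set G : ℝ → ℝ := fun t => ‖∑ u ∈ U, pw t u‖ ^ 2 with hG
  set P : ℝ → ℝ := fun t => ∑ p ∈ (range T).filter Nat.Prime, ‖pw t p - 1‖ ^ 2 with hP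
  have cG : Continuous G := cont_G U
  have cP : Continuous P := cont_P T
  have c1 : Continuous (fun t => Q1 T A Y s t) := cont_Q1 T A Y s
  have c2 : Continuous (fun t => Q2 A Y X s t) := cont_Q2 A Y X s
  have g0' : (1 - 1 / 16) * (U.card : ℝ) ≤ (1 / S) * ∫ t in S..(2 * S), G t := g0
  have g1' : (1 / S) * ∫ t in S..(2 * S), G t * P t ≤ 3 * T / m * U.card := g1
  have g2' : (1 / S) * ∫ t in S..(2 * S), G t * Q1 T A Y s t ≤
      (C * (A : ℝ) ^ 2 / Real.sqrt T + q / 16) * U.card := g2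
  have g3' : (1 / S) * ∫ t in S..(2 * S), Q2 A Y X s t ≤
      (A : ℝ) ^ 2 * (2 / Y + q / (16 * M * (A : ℝ) ^ 2)) := g3
  -- the integral with Q2
  have hG2 : ∫ t in S..(2 * S), G t * Q2 A Y X s t ≤
      (U.card : ℝ) ^ 2 * ∫ t in S..(2 * S), Q2 A Y X s t := by
    rw [← intervalIntegral.integral_const_mul]
    refine intervalIntegral.integral_mono_on (by linarith) ?_ ?_ ?_
    · exact (cG.mul c2).intervalIntegrable _ _
    · exact (continuous_const.mul c2).intervalIntegrable _ _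
    · intro t _
      exact mul_le_mul_of_nonneg_right (G_le U t) (Q2_nonneg A Y X s t)
  have hinv : 0 < 1 / S := by positivity
  have hq8 : C * (A : ℝ) ^ 2 / Real.sqrt T ≤ q / 8 := by
    have : 8 * C * (A : ℝ) ^ 2 / Real.sqrt T = 8 * (C * (A : ℝ) ^ 2 / Real.sqrt T) := by ring
    rw [this] at hCq
    linarith
  -- bound for Q2
  have g3'' : (1 / S) * ∫ t in S..(2 * S), G t * Q2 A Y X s t ≤ (3 / 16) * q * U.card := by
    have a1 : (1 / S) * ∫ t in S..(2 * S), G t * Q2 A Y X s t ≤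
        (U.card : ℝ) ^ 2 * ((A : ℝ) ^ 2 * (2 / Y + q / (16 * M * (A : ℝ) ^ 2))) := by
      calc (1 / S) * ∫ t in S..(2 * S), G t * Q2 A Y X s t
          ≤ (1 / S) * ((U.card : ℝ) ^ 2 * ∫ t in S..(2 * S), Q2 A Y X s t) :=
            mul_le_mul_of_nonneg_left hG2 hinv.le
        _ = (U.card : ℝ) ^ 2 * ((1 / S) * ∫ t in S..(2 * S), Q2 A Y X s t) := by ring
        _ ≤ _ := mul_le_mul_of_nonneg_left g3' (by positivity)
    have a2 : (U.card : ℝ) ^ 2 * ((A : ℝ) ^ 2 * (2 / Y + q / (16 * M * (A : ℝ) ^ 2))) ≤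
        (U.card : ℝ) * M * ((A : ℝ) ^ 2 * (2 / Y + q / (16 * M * (A : ℝ) ^ 2))) := by
      refine mul_le_mul_of_nonneg_right ?_ (by positivity)
      rw [sq]
      exact mul_le_mul_of_nonneg_left hUm hUc.le
    have a3 : M * ((A : ℝ) ^ 2 * (2 / Y + q / (16 * M * (A : ℝ) ^ 2))) =
        2 * (A : ℝ) ^ 2 * M / Y + q / 16 := by
      field_simp
    have a4 : 2 * (A : ℝ) ^ 2 * M / Y ≤ q / 8 := by
      rw [div_le_iff₀ hYR]
      rw [div_le_iff₀ hq] at hYq
      nlinarith
    have a5 : (U.card : ℝ) * M * ((A : ℝ) ^ 2 * (2 / Y + q / (16 * M * (A : ℝ) ^ 2))) ≤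
        (3 / 16) * q * U.card := by
      have : (U.card : ℝ) * M * ((A : ℝ) ^ 2 * (2 / Y + q / (16 * M * (A : ℝ) ^ 2))) =
          U.card * (2 * (A : ℝ) ^ 2 * M / Y + q / 16) := by
        rw [← a3]; ring
      rw [this]
      have h5 : 2 * (A : ℝ) ^ 2 * M / Y + q / 16 ≤ 3 / 16 * q := by linarith
      calc (U.card : ℝ) * (2 * (A : ℝ) ^ 2 * M / Y + q / 16) ≤ U.card * (3 / 16 * q) :=
            mul_le_mul_of_nonneg_left h5 hUc.le
        _ = _ := by ring
    exact a1.trans (a2.trans a5)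
  have g2'' : (1 / S) * ∫ t in S..(2 * S), G t * Q1 T A Y s t ≤ (3 / 16) * q * U.card := by
    refine g2'.trans ?_
    exact mul_le_mul_of_nonneg_right (by linarith) hUc.le
  -- the combined function
  set R : ℝ := 16 * T / m with hR
  have hRpos : 0 < R := by positivity
  have key : ∫ t in S..(2 * S),
      ((1 / R) * (G t * P t) + (1 / q) * (G t * Q1 T A Y s t) + (1 / q) * (G t * Q2 A Y X s t) - G t) < 0 := by
    have iG : IntervalIntegrable G volume S (2 * S) := cG.intervalIntegrable _ _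
    have iP : IntervalIntegrable (fun t => (1 / R) * (G t * P t)) volume S (2 * S) :=
      (continuous_const.mul (cG.mul cP)).intervalIntegrable _ _
    have i1 : IntervalIntegrable (fun t => (1 / q) * (G t * Q1 T A Y s t)) volume S (2 * S) :=
      (continuous_const.mul (cG.mul c1)).intervalIntegrable _ _
    have i2 : IntervalIntegrable (fun t => (1 / q) * (G t * Q2 A Y X s t)) volume S (2 * S) :=
      (continuous_const.mul (cG.mul c2)).intervalIntegrable _ _
    rw [intervalIntegral.integral_sub ((iP.add i1).add i2) iG,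
      intervalIntegral.integral_add (iP.add i1) i2, intervalIntegral.integral_add iP i1,
      intervalIntegral.integral_const_mul, intervalIntegral.integral_const_mul,
      intervalIntegral.integral_const_mul]
    have b1 : (1 / R) * ((1 / S) * ∫ t in S..(2 * S), G t * P t) ≤ 3 / 16 * U.card := by
      calc (1 / R) * ((1 / S) * ∫ t in S..(2 * S), G t * P t) ≤ (1 / R) * (3 * T / m * U.card) :=
            mul_le_mul_of_nonneg_left g1' (by positivity)
        _ = 3 / 16 * U.card := by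
            rw [hR]; field_simp
    have b2 : (1 / q) * ((1 / S) * ∫ t in S..(2 * S), G t * Q1 T A Y s t) ≤ 3 / 16 * U.card := by
      calc (1 / q) * ((1 / S) * ∫ t in S..(2 * S), G t * Q1 T A Y s t) ≤
            (1 / q) * ((3 / 16) * q * U.card) :=
            mul_le_mul_of_nonneg_left g2'' (by positivity)
        _ = 3 / 16 * U.card := by field_simp
    have b3 : (1 / q) * ((1 / S) * ∫ t in S..(2 * S), G t * Q2 A Y X s t) ≤ 3 / 16 * U.card := by
      calc (1 / q) * ((1 / S) * ∫ t in S..(2 * S), G t * Q2 A Y X s t) ≤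
            (1 / q) * ((3 / 16) * q * U.card) :=
            mul_le_mul_of_nonneg_left g3'' (by positivity)
        _ = 3 / 16 * U.card := by field_simp
    have tot : (1 / S) * ((1 / R) * (∫ t in S..(2 * S), G t * P t)
        + (1 / q) * (∫ t in S..(2 * S), G t * Q1 T A Y s t)
        + (1 / q) * (∫ t in S..(2 * S), G t * Q2 A Y X s t) - ∫ t in S..(2 * S), G t) < 0 := by
      have : (1 / S) * ((1 / R) * (∫ t in S..(2 * S), G t * P t)
        + (1 / q) * (∫ t in S..(2 * S), G t * Q1 T A Y s t)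
        + (1 / q) * (∫ t in S..(2 * S), G t * Q2 A Y X s t) - ∫ t in S..(2 * S), G t) =
        (1 / R) * ((1 / S) * ∫ t in S..(2 * S), G t * P t)
        + (1 / q) * ((1 / S) * ∫ t in S..(2 * S), G t * Q1 T A Y s t)
        + (1 / q) * ((1 / S) * ∫ t in S..(2 * S), G t * Q2 A Y X s t)
        - (1 / S) * ∫ t in S..(2 * S), G t := by ring
      rw [this]
      linarith
    by_contra hcon
    push Not at hcon
    have := mul_nonneg hinv.le hcon
    linarith
  obtain ⟨t, ht1, ht2, ht3⟩ := exists_neg _ S hSpos key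
  have hGt : 0 ≤ G t := by positivity
  have hfac : G t * ((1 / R) * P t + (1 / q) * Q1 T A Y s t + (1 / q) * Q2 A Y X s t - 1) < 0 := by
    have : G t * ((1 / R) * P t + (1 / q) * Q1 T A Y s t + (1 / q) * Q2 A Y X s t - 1) =
      (1 / R) * (G t * P t) + (1 / q) * (G t * Q1 T A Y s t) + (1 / q) * (G t * Q2 A Y X s t) - G t := by
      ring
    rw [this]
    exact ht3
  have hlt : (1 / R) * P t + (1 / q) * Q1 T A Y s t + (1 / q) * Q2 A Y X s t < 1 := by
    by_contra hcon
    push Not at hcon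
    have := mul_nonneg hGt (sub_nonneg.2 hcon)
    linarith
  have hPn : 0 ≤ P t := sum_nonneg (fun p _ => sq_nonneg _)
  obtain ⟨r1, r2, r3⟩ := lt_of_three hRpos hq hPn (Q1_nonneg T A Y s t) (Q2_nonneg A Y X s t) hlt
  have hXs : Real.sqrt (X : ℝ) = (⌈S⌉₊ : ℝ) := sqrt_natsq ⌈S⌉₊
  refine ⟨t, X, by linarith, by linarith, ?_, ?_, r1.le, r2, r3⟩
  · rw [hXs]
    linarith
  · exact le_natsq (Nat.cast_le.1 (hSY.trans hceil))

end Pool.Agent.W584.MR.EX
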